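import Pool.Agent.Helper53.Pq.Goals
import Pool.Agent.Helper88.Gam.Moments

/-!
# The third and fourth moments (goal `GM4` of helper53)
-/

namespace Pool.Agent.Helper88.Pq

open Pool.Agent.Helper53.Pq

theorem gM4 : GM4 := by
  intro θ h0 h1
  have h := Pool.Agent.Helper88.Gam.goal_M4 θ h0 h1 (1 + vv θ)
    (Real.Gamma (1 + 2 * θ) * Real.Gamma (1 - θ) ^ 2)
    (Real.Gamma (1 + 3 * θ) * Real.Gamma (1 - θ) ^ 3) (by unfold vv; ring) rfl rfl
  obtain ⟨⟨h2, h3⟩, h4⟩ := h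
  refine ⟨by linarith, by linarith, ?_⟩
  have e : zz θ = 2.6 * (1 + vv θ - 1) ^ 2 + 0.0035 := by unfold zz; ring
  rw [e]
  exact h4

end Pool.Agent.Helper88.Pq
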